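import Pool.Agent.Run7.h549.Rot4

/-!
# MP_c2e62a_gt: rotors in a regular triangular prism

Every rotor in the infinite regular triangular prism is a ball.
-/

set_option maxHeartbeats 400000

namespace Pool.Agent.Results.MP_c2e62a_gt.RotorsAreBalls

/-- Euclidean three-space; the third coordinate is `x 2`. -/
abbrev E3 := EuclideanSpace ℝ (Fin 3)

/-- `A`, `B`, `C` are the vertices of a (nondegenerate) equilateral triangle in the plane `z = 0`. -/
def IsRegularTriangle (A B C : E3) : Prop :=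
  A 2 = 0 ∧ B 2 = 0 ∧ C 2 = 0 ∧ 0 < dist A B ∧ dist B C = dist A B ∧ dist C A = dist A B

/-- `S × ℝ`: the union of the lines parallel to the `z`-axis through the points of `S`. -/
def Cyl (S : Set E3) : Set E3 := {x | ∃ y ∈ S, ∃ τ : ℝ, x = y + τ • EuclideanSpace.single 2 1}

/-- The infinite prism over the triangle with vertices `A`, `B`, `C`. -/
def Prism (A B C : E3) : Set E3 := Cyl (convexHull ℝ {A, B, C})

/-- The face of the prism over the edge `PQ`. -/
def Face (P Q : E3) : Set E3 := Cyl (segment ℝ P Q)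

/-- `ρ` lies in `SO(3)`: a linear isometry of determinant `1`. -/
def IsRotation (ρ : E3 ≃ₗᵢ[ℝ] E3) : Prop :=
  LinearMap.det (ρ.toLinearEquiv : E3 →ₗ[ℝ] E3) = 1

/-- `ρ K + t`. -/
def Moved (ρ : E3 ≃ₗᵢ[ℝ] E3) (t : E3) (K : Set E3) : Set E3 := (fun x => ρ x + t) '' K

/-- `M` lies in the prism over `ABC` and meets each of its three faces. -/
def Fits (A B C : E3) (M : Set E3) : Prop :=
  M ⊆ Prism A B C ∧ (M ∩ Face A B).Nonempty ∧ (M ∩ Face B C).Nonempty ∧ (M ∩ Face C A).Nonempty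

/-- `K` is a rotor in the prism over `ABC`: for every rotation `ρ ∈ SO(3)` there is a translation
vector `t` such that `ρ K + t` lies in the prism and meets each of its three faces. -/
def IsRotor (A B C : E3) (K : Set E3) : Prop :=
  ∀ ρ : E3 ≃ₗᵢ[ℝ] E3, IsRotation ρ → ∃ t : E3, Fits A B C (Moved ρ t K)

/-- **Goldberg's question.** A convex body is a rotor in the regular triangular prism over the
equilateral triangle `ABC` if and only if it is a ball, of radius the inradius `|AB|/(2√3)` of the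
triangle. In particular no non-spherical rotor exists. -/
theorem result (A B C : E3) (hT : IsRegularTriangle A B C) (K : Set E3) (hK : IsCompact K)
    (hconv : Convex ℝ K) (hint : (interior K).Nonempty) :
    IsRotor A B C K ↔ ∃ c : E3, K = Metric.closedBall c (dist A B / (2 * √3)) := by
  obtain ⟨hA, hB, hC, hs, h2, h3⟩ := hT
  constructor
  · intro hrot
    refine Run7.h549.Rot.rotor_ball hs rfl h2 h3 hA hB hC hK (hint.mono interior_subset) hconv
      fun ρ hρ => ?_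
    obtain ⟨t, hin, ⟨_, ⟨x1, hx1, rfl⟩, f1⟩, ⟨_, ⟨x2, hx2, rfl⟩, f2⟩, ⟨_, ⟨x3, hx3, rfl⟩, f3⟩⟩ :=
      hrot ρ hρ
    exact ⟨t, fun x hx => hin ⟨x, hx, rfl⟩, ⟨x1, hx1, f1⟩, ⟨x2, hx2, f2⟩, ⟨x3, hx3, f3⟩⟩
  · rintro ⟨c, rfl⟩ ρ _
    obtain ⟨t, hin, ⟨x1, hx1, f1⟩, ⟨x2, hx2, f2⟩, ⟨x3, hx3, f3⟩⟩ :=
      Run7.h549.Rot.ball_rotor hs rfl h2 h3 hA hB hC c ρ
    refine ⟨t, ?_, ⟨_, ⟨x1, hx1, rfl⟩, f1⟩, ⟨_, ⟨x2, hx2, rfl⟩, f2⟩, ⟨_, ⟨x3, hx3, rfl⟩, f3⟩⟩
    rintro _ ⟨x, hx, rfl⟩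
    exact hin x hx

end Pool.Agent.Results.MP_c2e62a_gt.RotorsAreBalls
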